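import Pool.Agent.Helper94.PP.GoalsA1

/-!
# Packet PP-WTE (MP_fc6b1e_nt): the weight `exp(-x/Z)` is admissible
-/

namespace Pool.Agent.Helper53.PP

open Pool.Agent.Helper94.PP

theorem sq_le_exp {u : ℝ} (hu : 0 ≤ u) : u ^ 2 ≤ Real.exp u := by
  have h := Real.sum_le_exp_of_nonneg hu 4
  have e : ∑ i ∈ Finset.range 4, u ^ i / (Nat.factorial i : ℝ) =
      1 + u + u ^ 2 / 2 + u ^ 3 / 6 := by
    simp only [Finset.sum_range_succ, Finset.sum_range_zero, Nat.factorial]
    push_cast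
    ring
  rw [e] at h
  have h2 : 0 ≤ u * ((u - 3 / 2) ^ 2 + 15 / 4) / 6 + 1 := by positivity
  nlinarith [h2]

theorem rpow_le_exp {u t : ℝ} (hu : 0 < u) (ht : 0 ≤ t) (ht2 : t ≤ 2) : u ^ t ≤ Real.exp u := by
  rcases le_total u 1 with h | h
  · exact (Real.rpow_le_one hu.le h ht).trans (Real.one_le_exp hu.le)
  · have h1 : u ^ t ≤ u ^ (2 : ℝ) := Real.rpow_le_rpow_of_exponent_le h ht2
    rw [Real.rpow_two] at h1
    exact h1.trans (sq_le_exp hu.le)

theorem exp_bound {a Z x : ℝ} (ha : 0 ≤ a) (ha1 : a ≤ 1) (hZ : 0 < Z) (hx : 0 < x) :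
    Real.exp (-x / Z) ≤ Z ^ a * x ^ (-a) ∧ Real.exp (-x / Z) * (x / Z) ≤ Z ^ a * x ^ (-a) := by
  have hu : 0 < x / Z := div_pos hx hZ
  have e1 : Z ^ a * x ^ (-a) = (x / Z) ^ (-a) := by
    rw [Real.div_rpow hx.le hZ.le, Real.rpow_neg hZ.le, div_inv_eq_mul, mul_comm]
  have e2 : -x / Z = -(x / Z) := by ring
  have hp : 0 < (x / Z) ^ a := Real.rpow_pos_of_pos hu a
  rw [e1, e2, Real.exp_neg, Real.rpow_neg hu.le]
  constructor
  · exact inv_anti₀ hp (rpow_le_exp hu ha (by linarith))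
  · have h := rpow_le_exp hu (t := a + 1) (by linarith) (by linarith)
    rw [Real.rpow_add hu, Real.rpow_one] at h
    have he : 0 < Real.exp (x / Z) := Real.exp_pos _
    rw [inv_mul_eq_div, div_le_iff₀ he, inv_mul_eq_div, le_div_iff₀ hp]
    linarith

theorem goalWTE : A1_WTE := by
  intro a Z ha ha1 hZ
  refine ⟨fun x hx => ?_, fun x y hx hxy => ?_⟩
  · rw [abs_of_pos (Real.exp_pos _)]
    exact (exp_bound ha ha1 hZ (by linarith)).1
  · have hx0 : 0 < x := by linarith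
    have h := (exp_bound ha ha1 hZ hx0).2
    have e : Real.exp (-y / Z) = Real.exp (-x / Z) * Real.exp (-((y - x) / Z)) := by
      rw [← Real.exp_add]
      congr 1
      ring
    have hv : 0 ≤ (y - x) / Z := div_nonneg (by linarith) hZ.le
    have h1 : 1 - (y - x) / Z ≤ Real.exp (-((y - x) / Z)) := Real.one_sub_le_exp_neg _
    have h2 : Real.exp (-((y - x) / Z)) ≤ 1 := Real.exp_le_one_iff.2 (by linarith)
    have hp := Real.exp_pos (-x / Z)
    rw [e, abs_of_nonneg (by nlinarith)]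
    calc Real.exp (-x / Z) - Real.exp (-x / Z) * Real.exp (-((y - x) / Z))
        = Real.exp (-x / Z) * (1 - Real.exp (-((y - x) / Z))) := by ring
      _ ≤ Real.exp (-x / Z) * ((y - x) / Z) :=
          mul_le_mul_of_nonneg_left (by linarith) hp.le
      _ = Real.exp (-x / Z) * (x / Z) * ((y - x) / x) := by
          field_simp
      _ ≤ Z ^ a * x ^ (-a) * ((y - x) / x) :=
          mul_le_mul_of_nonneg_right h (div_nonneg (by linarith) hx0.le)

end Pool.Agent.Helper53.PP
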