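import Pool.Agent.Helper76.PP.Goals3
import Pool.Agent.Helper59.RS.PSM
import Pool.Agent.Helper58.RS.EUL
import Pool.Agent.Helper61.RS.ZET

/-!
# Packet PP-BTRN (MP_fc6b1e_nt): truncation of the sum over primes
-/

set_option autoImplicit false

namespace Pool.Agent.Helper53.PP

open NumberField Module IsDedekindDomain Pool.Agent.Helper38.RS
open Pool.Agent.Helper76.PP

theorem psm' : S_PSM :=
  Pool.Agent.Helper59.RS.s_psm Pool.Agent.Helper58.RS.s_eul
    (Pool.Agent.Helper61.RS.s_zet Pool.Agent.Helper58.RS.s_eul)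

theorem b_trn : Pool.Agent.Helper76.PP.B_TRN := by
  classical
  intro K _ _
  obtain ⟨C, hC⟩ := psm' K
  set e : ℝ := Real.exp (1 / 2) - 1 with he
  have he0 : 0 < e := by
    have := Real.add_one_lt_exp (x := (1 / 2 : ℝ)) (by norm_num)
    rw [he]
    linarith
  refine ⟨e⁻¹ * (Real.log 2 + 2 * C), ?_⟩
  intro V n A hn hA
  have hlog : 0 < Real.log 2 := Real.log_pos (by norm_num)
  have hlog2 : 1 / 2 < Real.log 2 := by
    have := Real.log_two_gt_d9
    linarith
  have hn2 : (2 : ℝ) ≤ n := by exact_mod_cast hn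
  have hnl : 1 < n * Real.log 2 := by nlinarith
  set σ : ℝ := 1 / (n * Real.log 2) with hσ
  have hσ0 : 0 < σ := by
    rw [hσ]
    exact one_div_pos.2 (by linarith)
  have hσ1 : σ ≤ 1 := by
    rw [hσ, div_le_one (by linarith)]
    exact hnl.le
  have hσn : n * Real.log 2 * σ = 1 := by
    rw [hσ]
    exact mul_one_div_cancel (by linarith)
  set N : HeightOneSpectrum (𝓞 K) → ℝ := fun v => (Ideal.absNorm v.asIdeal : ℝ) with hN
  have hN1 : ∀ v, 1 ≤ N v := by
    intro v
    have h1 : Ideal.absNorm v.asIdeal ≠ 0 := by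
      rw [Ne, Ideal.absNorm_eq_zero_iff]
      exact v.ne_bot
    have h2 : 1 ≤ Ideal.absNorm v.asIdeal := Nat.one_le_iff_ne_zero.2 h1
    show (1 : ℝ) ≤ (Ideal.absNorm v.asIdeal : ℝ)
    exact_mod_cast h2
  have hs1 := _root_.Pool.Agent.Helper84.RS.summable_norm K (1 + σ) (by linarith)
  have hs2 := _root_.Pool.Agent.Helper84.RS.summable_norm K (1 + σ / 2) (by linarith)
  set f : HeightOneSpectrum (𝓞 K) → ℝ := fun v => N v ^ (-(1 + σ)) with hf
  set g : HeightOneSpectrum (𝓞 K) → ℝ := fun v => N v ^ (-(1 + σ / 2)) with hg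
  have hfg : ∀ v, f v ≤ g v := fun v =>
    Real.rpow_le_rpow_of_exponent_le (hN1 v) (by linarith)
  have hf0 : ∀ v, 0 ≤ f v := fun v => Real.rpow_nonneg (by linarith [hN1 v]) _
  have hpu : ∀ s : ℝ, pz (F := K) Set.univ s = ∑' v, N v ^ (-s) := by
    intro s
    unfold pz
    rw [tsum_univ (fun v : HeightOneSpectrum (𝓞 K) ↦ (Ideal.absNorm v.asIdeal : ℝ) ^ (-s))]
  have h1 := hC (1 + σ) (by linarith) (by linarith)
  have h2 := hC (1 + σ / 2) (by linarith) (by linarith)
  rw [hpu, abs_le] at h1 h2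
  have hl : Real.log (1 / (1 + σ / 2 - 1)) - Real.log (1 / (1 + σ - 1)) = Real.log 2 := by
    rw [← Real.log_div (by
      rw [Ne, one_div, inv_eq_zero]; intro h; linarith) (by
      rw [Ne, one_div, inv_eq_zero]; intro h; linarith)]
    congr 1
    have : σ ≠ 0 := hσ0.ne'
    rw [add_sub_cancel_left, add_sub_cancel_left]
    field_simp
  have hdiff : ∑' v, g v - ∑' v, f v ≤ Real.log 2 + 2 * C := by
    have h3 : ∑' v, g v = ∑' v, N v ^ (-(1 + σ / 2)) := rfl
    have h4 : ∑' v, f v = ∑' v, N v ^ (-(1 + σ)) := rfl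
    rw [h3, h4]
    linarith [h1.1, h1.2, h2.1, h2.2]
  have hpt : ∀ v, V.indicator f v ≤ (if v ∈ A then 1 / N v else 0) + e⁻¹ * (g v - f v) := by
    intro v
    have hgf : 0 ≤ e⁻¹ * (g v - f v) := mul_nonneg (inv_nonneg.2 he0.le) (by linarith [hfg v])
    by_cases hv : v ∈ V
    · rw [Set.indicator_of_mem hv]
      by_cases hlt : Ideal.absNorm v.asIdeal < 2 ^ n
      · rw [if_pos ((hA v).2 ⟨hv, hlt⟩)]
        have h5 : f v ≤ 1 / N v := by
          rw [one_div, ← Real.rpow_neg_one]
          exact Real.rpow_le_rpow_of_exponent_le (hN1 v) (by linarith)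
        linarith
      · have h6 : (2 : ℝ) ^ n ≤ N v := by
          have : 2 ^ n ≤ Ideal.absNorm v.asIdeal := not_lt.1 hlt
          show (2 : ℝ) ^ n ≤ (Ideal.absNorm v.asIdeal : ℝ)
          exact_mod_cast this
        have hNp : 0 < N v := by linarith [hN1 v]
        have h7 : Real.exp (1 / 2) ≤ N v ^ (σ / 2) := by
          have h8 : ((2 : ℝ) ^ n) ^ (σ / 2) = Real.exp (1 / 2) := by
            rw [← Real.rpow_natCast, ← Real.rpow_mul (by norm_num),
              Real.rpow_def_of_pos (by norm_num)]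
            congr 1
            linear_combination (1 / 2) * hσn
          rw [← h8]
          exact Real.rpow_le_rpow (by positivity) h6 (by linarith)
        have h9 : g v = f v * N v ^ (σ / 2) := by
          simp only [hf, hg]
          rw [← Real.rpow_add hNp]
          congr 1
          ring
        have h10 : e * f v ≤ g v - f v := by
          rw [h9, he]
          nlinarith [hf0 v, h7]
        have h11 : f v ≤ e⁻¹ * (g v - f v) := by
          rw [inv_mul_eq_div, le_div_iff₀ he0]
          linarith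
        have h12 : (0 : ℝ) ≤ if v ∈ A then 1 / N v else 0 := by
          split_ifs
          · positivity
          · exact le_refl _
        linarith
    · rw [Set.indicator_of_notMem hv]
      have h12 : (0 : ℝ) ≤ if v ∈ A then 1 / N v else 0 := by
        split_ifs
        · have := hN1 v
          positivity
        · exact le_refl _
      linarith
  have hpz : pz V (1 + σ) = ∑' v, V.indicator f v := by
    unfold pz
    exact tsum_subtype V f
  have hsA : Summable fun v => if v ∈ A then 1 / N v else (0 : ℝ) :=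
    summable_of_ne_finset_zero (s := A) fun v hv => if_neg hv
  have hsd : Summable fun v => e⁻¹ * (g v - f v) := (hs2.sub hs1).mul_left _
  rw [hpz]
  calc ∑' v, V.indicator f v ≤ ∑' v, ((if v ∈ A then 1 / N v else 0) + e⁻¹ * (g v - f v)) :=
        (hs1.indicator V).tsum_le_tsum hpt (hsA.add hsd)
    _ = ∑ v ∈ A, 1 / N v + e⁻¹ * (∑' v, g v - ∑' v, f v) := by
        rw [hsA.tsum_add hsd, tsum_mul_left, hs2.tsum_sub hs1,
          tsum_eq_sum (s := A) (fun v hv => if_neg hv)]
        congr 1
        exact Finset.sum_congr rfl fun v hv => if_pos hv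
    _ ≤ ∑ v ∈ A, 1 / N v + e⁻¹ * (Real.log 2 + 2 * C) := by
        gcongr

end Pool.Agent.Helper53.PP
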