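import Pool.Agent.Helper42.PP.Goals1
import Pool.Agent.Helper49.RP.LAM

/-!
# Packet PP-B-PBAS (MP_fc6b1e_nt): basis of the `P`-part
-/

set_option autoImplicit false

namespace Pool.Agent.Helper53.PP

open Polynomial Module Pool.Agent.Helper51.RP Pool.Agent.Helper42.PP
open Pool.Agent.Helper49.RPL (exists_quot pi_pol)

/-- The ring homomorphism given by an operator killed by `P`. -/
noncomputable def endHom {p : ℕ} {W : Type} [AddCommGroup W] [Module (ZMod p) W]
    (D : Module.End (ZMod p) W) (P : (ZMod p)[X]) (h : aeval D P = 0) :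
    AdjoinRoot P →+* Module.End (ZMod p) W :=
  Ideal.Quotient.lift (Ideal.span {P}) (aeval D : (ZMod p)[X] →ₐ[ZMod p] _).toRingHom (by
    intro a ha
    obtain ⟨b, rfl⟩ := Ideal.mem_span_singleton.1 ha
    change aeval D (P * b) = 0
    rw [map_mul, h, zero_mul])

theorem endHom_mk {p : ℕ} {W : Type} [AddCommGroup W] [Module (ZMod p) W]
    (D : Module.End (ZMod p) W) (P : (ZMod p)[X]) (h : aeval D P = 0) (c : (ZMod p)[X]) :
    endHom D P h (AdjoinRoot.mk P c) = aeval D c := rfl

/-- A finite vector space with an operator killed by an irreducible polynomial has a basis over the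
field. -/
theorem exists_basis {p : ℕ} [Fact p.Prime] {W : Type} [AddCommGroup W] [Module (ZMod p) W]
    (D : Module.End (ZMod p) W) (P : (ZMod p)[X]) (hP : Irreducible P) (h : aeval D P = 0)
    (hfin : Finite W) (n : ℕ) (hn : Nat.card W ≤ p ^ (P.natDegree * n)) :
    ∃ r ≤ n, ∃ b : Fin r → W, (∀ c : Fin r → (ZMod p)[X], ∑ i, aeval D (c i) (b i) = 0 →
      ∀ i, P ∣ c i) ∧ ∀ w, ∃ c : Fin r → (ZMod p)[X], w = ∑ i, aeval D (c i) (b i) := by
  have hF : Fact (Irreducible P) := ⟨hP⟩
  let _ : Module (AdjoinRoot P) W := Module.compHom W (endHom D P h)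
  have hsm : ∀ (c : (ZMod p)[X]) (w : W), AdjoinRoot.mk P c • w = aeval D c w := fun _ _ => rfl
  have hfk : Module.Finite (AdjoinRoot P) W := by infer_instance
  have hcard : Nat.card (AdjoinRoot P) = p ^ P.natDegree := by
    have h1 : Module.Finite (ZMod p) (AdjoinRoot P) :=
      (AdjoinRoot.powerBasis hP.ne_zero).finite
    rw [Module.natCard_eq_pow_finrank (K := ZMod p), Nat.card_zmod,
      (AdjoinRoot.powerBasis hP.ne_zero).finrank, AdjoinRoot.powerBasis_dim]
  have hr : finrank (AdjoinRoot P) W ≤ n := by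
    rw [Module.natCard_eq_pow_finrank (K := AdjoinRoot P), hcard, ← pow_mul] at hn
    have h2 := (Nat.pow_le_pow_iff_right (Fact.out : p.Prime).one_lt).1 hn
    exact Nat.le_of_mul_le_mul_left h2 hP.natDegree_pos
  let b := Module.finBasis (AdjoinRoot P) W
  refine ⟨finrank (AdjoinRoot P) W, hr, b, ?_, ?_⟩
  · intro c hc i
    have h3 : ∑ i, AdjoinRoot.mk P (c i) • b i = 0 := hc
    have h4 := (Fintype.linearIndependent_iff.1 b.linearIndependent) _ h3 i
    exact AdjoinRoot.mk_eq_zero.1 h4
  · intro w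
    have h5 : ∀ i, ∃ c : (ZMod p)[X], AdjoinRoot.mk P c = b.repr w i := fun i =>
      AdjoinRoot.mk_surjective _
    choose c hc using h5
    refine ⟨c, ?_⟩
    have h6 := b.sum_repr w
    rw [← h6]
    exact Finset.sum_congr rfl fun i _ => by rw [← hc i, hsm]

theorem p_bas : Pool.Agent.Helper42.PP.P_BAS := by
  classical
  intro p _ K M _ _ _ m δ P hm hmp hδ hP hPm U hU n hn
  obtain ⟨V, _, _, π, D, hsurj, hker, hD⟩ := exists_quot (p := p) δ
  have hpol := pi_pol δ π D hD
  have hdiv : ∀ x y : Mˣ, π (Additive.ofMul (x / y)) =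
      π (Additive.ofMul x) - π (Additive.ofMul y) := fun x y => by rw [ofMul_div, map_sub]
  have hcomm : ∀ v, aeval D P (D v) = D (aeval D P v) := by
    intro v
    have h1 : aeval D P * D = D * aeval D P := by
      have h2 : aeval D (P * X) = aeval D (X * P) := by rw [mul_comm]
      rwa [map_mul, map_mul, aeval_X] at h2
    exact congrArg (fun T : Module.End (ZMod p) V => T v) h1
  let W : Submodule (ZMod p) V :=
    { carrier := {v | (∃ x ∈ U, π (Additive.ofMul x) = v) ∧ aeval D P v = 0}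
      add_mem' := by
        rintro _ _ ⟨⟨x, hx, rfl⟩, h1⟩ ⟨⟨y, hy, rfl⟩, h2⟩
        refine ⟨⟨x * y, U.mul_mem hx hy, by rw [ofMul_mul, map_add]⟩, ?_⟩
        rw [map_add, h1, h2, add_zero]
      zero_mem' := ⟨⟨1, U.one_mem, by simp⟩, map_zero _⟩
      smul_mem' := by
        rintro c _ ⟨⟨x, hx, rfl⟩, h1⟩
        refine ⟨⟨x ^ c.val, U.pow_mem hx _, ?_⟩, ?_⟩
        · rw [ofMul_pow, map_nsmul, ← Nat.cast_smul_eq_nsmul (ZMod p), ZMod.natCast_zmod_val]
        · rw [map_smul, h1, smul_zero] }
  have hDW : ∀ v ∈ W, D v ∈ W := by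
    rintro _ ⟨⟨x, hx, rfl⟩, h1⟩
    refine ⟨⟨act δ x, hU x hx, hD x⟩, ?_⟩
    rw [hcomm, h1, map_zero]
  let DW : Module.End (ZMod p) W := D.restrict hDW
  have hcoe : ∀ (c : (ZMod p)[X]) (v : W), ((aeval DW c v : W) : V) = aeval D c (v : V) := by
    intro c v
    induction c using Polynomial.induction_on' with
    | add a b ha hb => rw [map_add, map_add, LinearMap.add_apply, LinearMap.add_apply,
        Submodule.coe_add, ha, hb]
    | monomial k a =>
      have h1 : ∀ k : ℕ, (((DW ^ k) v : W) : V) = (D ^ k) (v : V) := by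
        intro k
        induction k with
        | zero => rfl
        | succ k ih =>
          rw [pow_succ', pow_succ', Module.End.mul_apply, Module.End.mul_apply, ← ih]
          rfl
      rw [aeval_monomial, aeval_monomial, Module.algebraMap_end_eq_smul_id,
        Module.algebraMap_end_eq_smul_id]
      simp only [Module.End.mul_apply, LinearMap.smul_apply, LinearMap.id_coe, id_eq,
        Submodule.coe_smul, h1]
  have hP0 : aeval DW P = 0 := by
    apply LinearMap.ext
    intro v
    apply Subtype.ext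
    rw [hcoe]
    exact v.2.2
  -- the bound
  have hbd : ∀ E : Finset W, E.card ≤ p ^ (P.natDegree * n) := by
    intro E
    have hch : ∀ v : W, ∃ x : Mˣ, x ∈ U ∧ π (Additive.ofMul x) = v := fun v => by
      obtain ⟨x, hx, hxv⟩ := v.2.1
      exact ⟨x, hx, hxv⟩
    choose c hc using hch
    have hinj : Set.InjOn c (E : Set W) := by
      intro v _ w _ hvw
      apply Subtype.ext
      rw [← (hc v).2, ← (hc w).2, hvw]
    rw [← Finset.card_image_of_injOn hinj]
    apply hn
    · intro x hx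
      rw [Finset.mem_image] at hx
      obtain ⟨v, hv, rfl⟩ := hx
      refine ⟨(hc v).1, ?_⟩
      rw [← hker, hpol, (hc v).2]
      exact v.2.2
    · intro x hx y hy hxy
      rw [Finset.mem_image] at hx hy
      obtain ⟨v, hv, rfl⟩ := hx
      obtain ⟨w, hw, rfl⟩ := hy
      rw [← hker, hdiv, (hc v).2, (hc w).2, sub_eq_zero]
      intro h
      exact hxy (by rw [Subtype.ext h])
  have hfin : Finite W := by
    by_contra hinf
    rw [not_finite_iff_infinite] at hinf
    obtain ⟨E, hE⟩ := Infinite.exists_subset_card_eq W (p ^ (P.natDegree * n) + 1)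
    have := hbd E
    omega
  have hcW : Nat.card W ≤ p ^ (P.natDegree * n) := by
    have := Fintype.ofFinite W
    rw [Nat.card_eq_fintype_card]
    exact hbd Finset.univ
  obtain ⟨r, hr, b, hb1, hb2⟩ := exists_basis DW P hP hP0 hfin n hcW
  have hu : ∀ i, ∃ x : Mˣ, x ∈ U ∧ π (Additive.ofMul x) = b i := fun i => by
    obtain ⟨x, hx, hxv⟩ := (b i).2.1
    exact ⟨x, hx, hxv⟩
  choose u hu1 hu2 using hu
  have hsum : ∀ c : Fin r → (ZMod p)[X], π (Additive.ofMul (∏ i, pol (c i) δ (u i))) =
      ((∑ i, aeval DW (c i) (b i) : W) : V) := by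
    intro c
    rw [ofMul_prod, map_sum, Submodule.coe_sum]
    exact Finset.sum_congr rfl fun i _ => by rw [hpol, hu2, hcoe]
  refine ⟨r, hr, u, fun i => ⟨hu1 i, ?_⟩, ?_, ?_⟩
  · rw [← hker, hpol, hu2]
    exact (b i).2.2
  · intro c hc
    apply hb1
    apply Subtype.ext
    rw [← hsum, (hker _).2 hc]
    rfl
  · intro x hx hxP
    obtain ⟨c, hc⟩ := hb2 ⟨π (Additive.ofMul x), ⟨x, hx, rfl⟩, by rw [← hpol, hker]; exact hxP⟩
    refine ⟨c, ?_⟩
    rw [← hker, hdiv, hsum, ← hc, sub_self]

end Pool.Agent.Helper53.PP
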